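import Pool.Agent.W353.AT.Bessel
import Pool.Agent.W353.PV.Ord

/-! The size of an Euler product near the edge, in terms of the traces. -/

set_option autoImplicit false

namespace Pool.Agent.K4H20.TF

open Complex Filter Topology ComplexConjugate Pool.Agent.H341R2 NumberField IsDedekindDomain
  Pool.Agent.W401.Cheb Pool.Agent.W540.BE Pool.Agent.W353.L1 Polynomial

/-- the logarithm of a local factor -/
theorem local_factor' {b : ℕ} (w : ℝ) (q : ℕ) (hq : 2 ≤ q) (S : Multiset ℂ)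
    (hb : Multiset.card S ≤ b) (hα : ∀ a ∈ S, ‖a‖ = (q : ℝ) ^ w) (ε : ℝ) (hε : 0 < ε) :
    ∃ G : ℂ, cexp G = ((S.map fun a => 1 - a * (q : ℂ) ^ (-(w + 1 + ε : ℂ))).prod)⁻¹ ∧
      ‖G - (S.sum * (q : ℂ) ^ (-(w : ℂ))) * ((q : ℝ) ^ (-(1 + ε)) : ℝ)‖ ≤
        b * (q : ℝ) ^ (-2 : ℝ) := by
  have hq0 : (0 : ℝ) < q := by
    have : 0 < q := by omega
    exact_mod_cast this
  have hq1 : (1 : ℝ) ≤ q := by
    have : 1 ≤ q := by omega
    exact_mod_cast this
  have hq2 : (2 : ℝ) ≤ q := by exact_mod_cast hq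
  have hqc : (q : ℂ) ≠ 0 := by
    have : q ≠ 0 := by omega
    exact_mod_cast this
  set z : ℂ := (q : ℂ) ^ (-(w + 1 + ε : ℂ)) with hz
  have hzn : ‖z‖ = (q : ℝ) ^ (-(w + 1 + ε)) := by
    rw [hz, Complex.norm_natCast_cpow_of_pos (by omega)]
    congr 1
  have hx : ∀ l ∈ S, ‖l * z‖ = (q : ℝ) ^ (-(1 + ε)) := by
    intro l hl
    rw [norm_mul, hα l hl, hzn, ← Real.rpow_add hq0]
    congr 1
    ring
  have hsmall : (q : ℝ) ^ (-(1 + ε)) ≤ 1 / 2 := by
    calc (q : ℝ) ^ (-(1 + ε)) ≤ (q : ℝ) ^ (-1 : ℝ) :=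
          Real.rpow_le_rpow_of_exponent_le hq1 (by linarith)
      _ = (q : ℝ)⁻¹ := Real.rpow_neg_one _
      _ ≤ 1 / 2 := by
          rw [one_div]
          exact inv_anti₀ (by norm_num) hq2
  have hne : ∀ l ∈ S, 1 - l * z ≠ 0 := by
    intro l hl h
    have h1 : ‖l * z‖ = 1 := by
      have : l * z = 1 := by linear_combination -h
      rw [this, norm_one]
    rw [hx l hl] at h1
    linarith
  refine ⟨(S.map fun l => -Complex.log (1 - l * z)).sum, ?_, ?_⟩
  · rw [Complex.exp_multiset_sum, Multiset.map_map, ← Multiset.prod_map_inv]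
    refine congrArg _ (Multiset.map_congr rfl fun l hl => ?_)
    simp only [Function.comp_apply]
    rw [Complex.exp_neg, Complex.exp_log (hne l hl)]
  · have h1 : (S.sum * (q : ℂ) ^ (-(w : ℂ))) * ((q : ℝ) ^ (-(1 + ε)) : ℝ) =
        (S.map fun l => l * z).sum := by
      have h2 : z = (q : ℂ) ^ (-(w : ℂ)) * (((q : ℝ) ^ (-(1 + ε)) : ℝ) : ℂ) := by
        rw [hz, Complex.ofReal_cpow hq0.le]
        push_cast
        rw [← Complex.cpow_add _ _ hqc]
        congr 1
        ring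
      rw [Multiset.sum_map_mul_right, Multiset.map_id', h2]
      ring
    rw [h1, ← Multiset.sum_map_sub]
    have h5 : ‖(S.map fun l => -Complex.log (1 - l * z) - l * z).sum‖ ≤
        ((S.map fun l => -Complex.log (1 - l * z) - l * z).map fun x => ‖x‖).sum :=
      norm_multiset_sum_le _
    refine h5.trans ?_
    rw [Multiset.map_map]
    have h6 : ∀ x ∈ S.map ((fun x => ‖x‖) ∘ fun l => -Complex.log (1 - l * z) - l * z),
        x ≤ (q : ℝ) ^ (-2 : ℝ) := by
      intro x hx'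
      rw [Multiset.mem_map] at hx'
      obtain ⟨l, hl, rfl⟩ := hx'
      simp only [Function.comp_apply]
      have h7 : ‖l * z‖ ≤ 1 / 2 := (hx l hl).le.trans hsmall
      refine (norm_neg_log_sub_le h7).trans ?_
      rw [hx l hl]
      calc ((q : ℝ) ^ (-(1 + ε))) ^ 2 ≤ ((q : ℝ) ^ (-1 : ℝ)) ^ 2 := by
            refine pow_le_pow_left₀ (by positivity) ?_ 2
            exact Real.rpow_le_rpow_of_exponent_le hq1 (by linarith)
        _ = (q : ℝ) ^ (-2 : ℝ) := by
            rw [← Real.rpow_natCast, ← Real.rpow_mul hq0.le]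
            norm_num
    refine (Multiset.sum_le_card_nsmul _ _ h6).trans ?_
    rw [Multiset.card_map, nsmul_eq_mul]
    refine mul_le_mul_of_nonneg_right ?_ (by positivity)
    exact_mod_cast hb

section
variable {F : Type} [Field F] [NumberField F]

/-- The size of an Euler product, in terms of the normalised traces `t v`. -/
theorem size_t (w : ℝ) {b : ℕ} (t : HeightOneSpectrum (𝓞 F) → ℝ) (ht : ∀ v, |t v| ≤ b)
    (B : HeightOneSpectrum (𝓞 F) → ℂ[X])
    (hB : ∀ᶠ v in cofinite, ∃ S : Multiset ℂ, Multiset.card S ≤ b ∧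
      (∀ a ∈ S, ‖a‖ = (nm F v : ℝ) ^ w) ∧
      (∀ z : ℂ, (B v).eval z = (S.map fun a => 1 - a * z).prod) ∧
      S.sum = (t v : ℂ) * (((nm F v : ℝ) ^ w : ℝ) : ℂ))
    (hB0 : ∀ v, (B v).eval (((nm F v : ℕ) : ℂ) ^ (-(w + 1 : ℂ))) ≠ 0) (L : ℂ → ℂ)
    (hL : ∀ s : ℂ, w + 1 < s.re → L s = ∏' v, ((B v).eval (((nm F v : ℕ) : ℂ) ^ (-s)))⁻¹) :
    (∀ᶠ ε : ℝ in 𝓝[>] 0, L (w + 1 + ε) ≠ 0) ∧
    Tendsto (fun ε : ℝ => (EP (nm F) ε t) / lam ε -
        Real.log ‖L (w + 1 + ε)‖ / Real.log (1 / ε)) (𝓝[>] 0) (𝓝 0) := by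
  classical
  have hN : NormSys (nm F) := normSys
  set Good : HeightOneSpectrum (𝓞 F) → Prop := fun v => ∃ S : Multiset ℂ,
    Multiset.card S ≤ b ∧ (∀ a ∈ S, ‖a‖ = (nm F v : ℝ) ^ w) ∧
      (∀ z : ℂ, (B v).eval z = (S.map fun a => 1 - a * z).prod) ∧
      S.sum = (t v : ℂ) * (((nm F v : ℝ) ^ w : ℝ) : ℂ) with hGood
  have hfin : {v | ¬ Good v}.Finite := by
    rwa [Filter.eventually_cofinite] at hB
  have hGex : ∀ (ε : ℝ) (v : HeightOneSpectrum (𝓞 F)), ∃ G : ℂ, 0 < ε → Good v →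
      cexp G = ((B v).eval (((nm F v : ℕ) : ℂ) ^ (-(w + 1 + ε : ℂ))))⁻¹ ∧
      ‖G - (t v : ℂ) * ((nm F v : ℝ) ^ (-(1 + ε)) : ℝ)‖ ≤ (b : ℝ) * (nm F v : ℝ) ^ (-2 : ℝ) := by
    intro ε v
    by_cases h : 0 < ε ∧ Good v
    · obtain ⟨S, h1, h2, h3, h4⟩ := h.2
      obtain ⟨G, hG1, hG2⟩ := local_factor' w (nm F v) (two_le_nm v) S h1 h2 ε h.1
      refine ⟨G, fun _ _ => ⟨?_, ?_⟩⟩
      · rw [hG1, h3]
      · have h0 : (0 : ℝ) < nm F v := by exact_mod_cast nm_pos v
        have h5 : S.sum * ((nm F v : ℕ) : ℂ) ^ (-(w : ℂ)) = (t v : ℂ) := by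
          rw [h4, mul_assoc]
          have h6 : (((nm F v : ℝ) ^ w : ℝ) : ℂ) * ((nm F v : ℕ) : ℂ) ^ (-(w : ℂ)) = 1 := by
            rw [Complex.ofReal_cpow h0.le]
            push_cast
            rw [← Complex.cpow_add _ _ (by exact_mod_cast (nm_pos v).ne'), add_neg_cancel,
              Complex.cpow_zero]
          rw [h6, mul_one]
        rw [h5] at hG2
        exact hG2
    · exact ⟨0, fun h1 h2 => absurd ⟨h1, h2⟩ h⟩
  choose G hG using hGex
  set a : HeightOneSpectrum (𝓞 F) → ℂ := fun v => if Good v then (t v : ℂ) else 0 with ha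
  have hab : ∀ v, ‖a v‖ ≤ b := by
    intro v
    rw [ha]
    simp only
    split_ifs
    · rw [Complex.norm_real]
      exact ht v
    · rw [norm_zero]; positivity
  have ha0 : ∀ v, ¬ Good v → a v = 0 := by
    intro v hv
    rw [ha]
    simp only
    rw [if_neg hv]
  obtain ⟨C', hC'⟩ := sizeP hN (Good := Good) hfin B (w + 1)
    (fun v _ => hB0 v) a hab ha0 G (C := (b : ℝ))
    (by
      intro ε hε v hv
      have h1 : a v = (t v : ℂ) := by
        rw [ha]
        simp only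
        rw [if_pos hv]
      rw [h1]
      exact (hG ε v hε hv).2)
    (L := fun ε => L (w + 1 + ε))
    (by
      intro ε hε
      rw [hL _ (by simp [hε])]
      refine tprod_congr fun v => ?_
      split_ifs with hv
      · rw [(hG ε v hε hv).1]
      · rfl)
  set r : HeightOneSpectrum (𝓞 F) → ℝ := fun v => t v - (a v).re with hr
  have hr0 : ∀ v, v ∉ hfin.toFinset → r v = 0 := by
    intro v hv
    rw [Set.Finite.mem_toFinset, Set.mem_ofPred_eq, not_not] at hv
    rw [hr, ha]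
    simp only
    rw [if_pos hv, Complex.ofReal_re, sub_self]
  have har : ∀ v, |(a v).re| ≤ b := fun v => (Complex.abs_re_le_norm _).trans (hab v)
  have hrb : ∀ v, |r v| ≤ 2 * b := by
    intro v
    rw [hr]
    simp only
    have h1 := ht v
    have h2 := har v
    rw [abs_le] at *
    constructor <;> linarith [h1.1, h1.2, h2.1, h2.2]
  have hsplit : ∀ ε : ℝ, 0 < ε → (EP (nm F) ε t) =
      (EP (nm F) ε fun v => (a v).re) + EP (nm F) ε r := by
    intro ε hε
    rw [← EP_add hN hε (B := b) (B' := 2 * b) har hrb]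
    congr 1
    funext v
    rw [hr]
    ring
  have hmain : ∀ᶠ ε : ℝ in 𝓝[>] 0, L (w + 1 + ε) ≠ 0 ∧
      |(EP (nm F) ε t) - Real.log ‖L (w + 1 + ε)‖| ≤
        C' + hfin.toFinset.card * (2 * b) := by
    filter_upwards [hC', self_mem_nhdsWithin] with ε h1 h2
    have hε : (0 : ℝ) < ε := h2
    refine ⟨h1.1, ?_⟩
    rw [hsplit ε hε]
    have h4 := EP_finsupp hN hfin.toFinset r hr0 _ hrb hε
    have h5 : (EP (nm F) ε fun v => (a v).re) + EP (nm F) ε r -
        Real.log ‖L (w + 1 + ε)‖ =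
        ((EP (nm F) ε fun v => (a v).re) - Real.log ‖L (w + 1 + ε)‖) +
          EP (nm F) ε r := by ring
    rw [h5]
    exact (abs_add_le _ _).trans (add_le_add h1.2 h4)
  have hEP1 : ∀ᶠ ε : ℝ in 𝓝[>] 0, (EP (nm F) ε fun _ => 1) ≤ 2 * lam ε := by
    filter_upwards [(EP_one F).eventually_lt_const (by norm_num : (1 : ℝ) < 2),
      lam_tendsto.eventually_gt_atTop 0] with ε h1 h2
    rw [div_lt_iff₀ h2] at h1
    exact h1.le
  have hylam : ∀ᶠ ε : ℝ in 𝓝[>] 0,
      |EP (nm F) ε t| ≤ (2 * b : ℝ) * lam ε := by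
    filter_upwards [hEP1, self_mem_nhdsWithin] with ε h1 h2
    have hε : (0 : ℝ) < ε := h2
    have h3 : |EP (nm F) ε t| ≤ (b : ℝ) * EP (nm F) ε fun _ => 1 := by
      rw [abs_le]
      constructor
      · have h7 := EP_le hN hε (φ := fun v => (-1) * t v) (B := b)
          (fun v => by rw [abs_mul, abs_neg, abs_one, one_mul]; exact ht v) (b := b)
          (fun v => by have := (abs_le.1 (ht v)).1; linarith)
        rw [EP_const_mul] at h7
        linarith
      · exact EP_le hN hε ht fun v => (le_abs_self _).trans (ht v)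
    refine h3.trans ?_
    calc (b : ℝ) * EP (nm F) ε (fun _ => 1) ≤ (b : ℝ) * (2 * lam ε) :=
          mul_le_mul_of_nonneg_left h1 (by positivity)
      _ = _ := by ring
  exact ⟨hmain.mono fun _ h => h.1, size_compare hylam (hmain.mono fun _ h => h.2)⟩

end

end Pool.Agent.K4H20.TF
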